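import Pool.Agent.L7h98.SY.Stm

set_option autoImplicit false

/-! # SY: part D -/

namespace Pool.Agent.L7h12.SY

open scoped InnerProductSpace
open Module Classical Pool.Agent.L7h98.SY

theorem GP_symm {G : Subgroup (E3 ≃ₗᵢ[ℝ] E3)} {V H : Finset E3} (h : GP G V H) : GP G H V :=
  ⟨h.1.symm, h.2.2, h.2.1⟩

theorem rounds (hr : S_RND) (G : Subgroup (E3 ≃ₗᵢ[ℝ] E3)) [Finite G] (q n : ℕ)
    (hq : 0 < q) (hn : n * q = Nat.card G) (V H : Finset E3) (hG : GP G V H)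
    (hh : ∃ h ∈ H, (T V h).card = 3 ∧ Nat.card {g : G // (g : E3 ≃ₗᵢ[ℝ] E3) h = h} = q) (k : ℕ) :
    ∃ V' H' : Finset E3, GP G V' H' ∧ V'.card = V.card + 3 * n * k ∧
      H'.card = H.card + 3 * n * k ∧
      (∃ h ∈ H', (T V' h).card = 3 ∧ Nat.card {g : G // (g : E3 ≃ₗᵢ[ℝ] E3) h = h} = q) ∧
      (0 < k → ∃ v ∈ V', (T H' v).card = 3 ∧ ∀ g ∈ G, g v = v → g ^ 3 = 1 → g = 1) := by
  induction k with
  | zero => exact ⟨V, H, hG, by simp, by simp, hh, fun h => absurd h (lt_irrefl _)⟩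
  | succ k ih =>
    obtain ⟨V1, H1, hG1, hV1, hH1, ⟨h, hhH, hh3, hhq⟩, -⟩ := ih
    obtain ⟨V2, H2, n', hG2, hn', hV2, hH2, hT2, hv2⟩ := hr G V1 H1 hG1 h hhH hh3 q hhq
    have hnn : n' = n := Nat.eq_of_mul_eq_mul_right hq (hn'.trans hn.symm)
    subst hnn
    refine ⟨V2, H2, hG2, ?_, ?_, hT2, fun _ => hv2⟩
    · rw [hV2, hV1]; ring
    · rw [hH2, hH1]; ring

theorem caseOne (hr : S_RND) (ha : S_A) (ho : S_ONE) (G : Subgroup (E3 ≃ₗᵢ[ℝ] E3)) [Finite G]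
    (V H : Finset E3) (hG : GP G V H) (hh : ∃ h ∈ H, (T V h).card = 3) :
    ∃ (a b : ℕ) (V' H' : Finset E3), GP G V' H' ∧ V'.card = V.card + (b + 2 * a) * Nat.card G ∧
      H'.card = H.card + (2 * b + a) * Nat.card G ∧ FT G V' H' ∧ FT G H' V' := by
  obtain ⟨h, hhH, hh3⟩ := hh
  set q := Nat.card {g : G // (g : E3 ≃ₗᵢ[ℝ] E3) h = h} with hq
  have hq0 : 0 < q := by
    rw [hq]
    have : Nonempty {g : G // (g : E3 ≃ₗᵢ[ℝ] E3) h = h} := ⟨⟨1, rfl⟩⟩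
    exact Nat.card_pos
  obtain ⟨-, -, n, -, hn, -⟩ := hr G V H hG h hhH hh3 q hq.symm
  obtain ⟨V1, H1, hG1, hV1, hH1, -, hv1⟩ := rounds hr G q n hq0 hn V H hG ⟨h, hhH, hh3, hq.symm⟩ q
  have h3 : 3 * n * q = 3 * Nat.card G := by rw [mul_assoc, hn]
  rw [h3] at hV1 hH1
  obtain ⟨m, H2, V2, hG2, hH2, hV2, hF2⟩ := ha G H1 V1 (GP_symm hG1) (hv1 hq0)
  obtain ⟨H3, V3, hG3, hH3, hV3, hF3, hF3'⟩ := ho G H2 V2 hG2 hF2
  refine ⟨m + 2, 1, V3, H3, GP_symm hG3, ?_, ?_, hF3', hF3⟩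
  · rw [hV3, hV2, hV1]; ring
  · rw [hH3, hH2, hH1]; ring

theorem s_D (ht : S_TRI) (hr : S_RND) (ha : S_A) (ho : S_ONE) : S_D := by
  intro G _ V H hG
  rcases (ht V H hG.1).2.2 with h | h
  · obtain ⟨a, b, V', H', h1, h2, h3, h4, -⟩ := caseOne hr ha ho G V H hG h
    exact ⟨a, b, V', H', h1, h2, h3, h4⟩
  · obtain ⟨a, b, V', H', h1, h2, h3, h4, h5⟩ := caseOne hr ha ho G H V (GP_symm hG) h
    refine ⟨b, a, H', V', GP_symm h1, ?_, ?_, h5⟩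
    · rw [h3]; ring
    · rw [h2]; ring

end Pool.Agent.L7h12.SY
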