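import Pool.Agent.L7h98.SY.Stm

set_option autoImplicit false

/-! # SY: the combinatorial part (a form of Dickson's lemma) -/

namespace Pool.Agent.L7h12.SY

open Classical Pool.Agent.L7h98.SY

/-- pigeonhole principle for infinite sets -/
theorem pig (D : Set (ℕ × ℕ)) (hD : D.Infinite) (f : ℕ × ℕ → ℕ) (K : ℕ)
    (hf : ∀ p ∈ D, f p < K) : ∃ k, {p | p ∈ D ∧ f p = k}.Infinite := by
  by_contra hcon
  push Not at hcon
  apply hD
  have hsub : D ⊆ ⋃ k ∈ Finset.range K, {p | p ∈ D ∧ f p = k} := by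
    intro p hp
    rw [Set.mem_iUnion₂]
    exact ⟨f p, Finset.mem_range.2 (hf p hp), hp, rfl⟩
  refine Set.Finite.subset ?_ hsub
  exact Set.Finite.biUnion (Finset.finite_toSet _) fun k _ => by
    have := hcon k
    exact Set.not_infinite.1 (by simpa using this)

/-- a residue class: a larger element is obtained by adding a multiple -/
theorem add_of_mod {m s s' a : ℕ} (hm : 1 ≤ m) (h : s % m = s' % m) (hle : s + m * a ≤ s') :
    ∃ b, a ≤ b ∧ s' = s + m * b := by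
  have h1 : s ≤ s' := by
    have := Nat.zero_le (m * a)
    omega
  have h2 : (s' - s) % m = 0 := Nat.sub_mod_eq_zero_of_mod_eq h.symm
  obtain ⟨b, hb⟩ := Nat.dvd_of_mod_eq_zero h2
  refine ⟨b, ?_, by omega⟩
  have h3 : m * a ≤ m * b := by omega
  exact Nat.le_of_mul_le_mul_left h3 hm

theorem core (n : ℕ) (D E : Set (ℕ × ℕ)) (hn : 1 ≤ n)
    (f g : ℕ × ℕ → ℕ) (hinj : ∀ p ∈ D, ∀ q ∈ D, f p = f q → g p = g q → p = q)
    (k r : ℕ) (hk : ∀ p ∈ D, f p = k) (hr : ∀ p ∈ D, g p % (3 * n) = r)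
    (hE : ∀ p ∈ D, p ∉ E) (hD : D.Infinite)
    (h3 : ∃ M : ℕ, ∀ p ∈ D, M ≤ g p → ∃ b₀ : ℕ, ∀ b, b₀ ≤ b → ∀ q ∈ D, f q = f p →
      g q = g p + 3 * n * b → q ∈ E) : False := by
  have hub : ∀ M : ℕ, ∃ p ∈ D, M ≤ g p := by
    intro M
    by_contra hcon
    push Not at hcon
    obtain ⟨m, hm⟩ := pig D hD g M hcon
    apply hm
    refine Set.Subsingleton.finite ?_
    intro p hp q hq
    exact hinj p hp.1 q hq.1 ((hk p hp.1).trans (hk q hq.1).symm) (hp.2.trans hq.2.symm)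
  obtain ⟨M, hM⟩ := h3
  obtain ⟨p, hp, hpM⟩ := hub M
  obtain ⟨b₀, hb₀⟩ := hM p hp hpM
  obtain ⟨q, hq, hqM⟩ := hub (g p + 3 * n * b₀)
  obtain ⟨b, hb, hqb⟩ := add_of_mod (m := 3 * n) (by omega) ((hr p hp).trans (hr q hq).symm) hqM
  exact hE q hq (hb₀ b hb q hq ((hk q hq).trans (hk p hp).symm) hqb)

theorem s_DIC : S_DIC := by
  intro n S E hn hS h2 h3 h4
  by_contra hinf
  have hinf : (S \ E).Infinite := hinf
  -- residue classes
  obtain ⟨r1, hr1⟩ := pig _ hinf (fun p => (2 * p.1 - p.2) % (3 * n)) (3 * n)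
    (fun p _ => Nat.mod_lt _ (by omega))
  obtain ⟨r2, hr2⟩ := pig _ hr1 (fun p => (2 * p.2 - p.1) % (3 * n)) (3 * n)
    (fun p _ => Nat.mod_lt _ (by omega))
  set D : Set (ℕ × ℕ) := {p | p ∈ {p | p ∈ S \ E ∧ (fun p : ℕ × ℕ => (2 * p.1 - p.2) % (3 * n)) p = r1}
    ∧ (fun p : ℕ × ℕ => (2 * p.2 - p.1) % (3 * n)) p = r2} with hDdef
  have hDS : ∀ p ∈ D, p ∈ S := fun p hp => hp.1.1.1
  have hDE : ∀ p ∈ D, p ∉ E := fun p hp => hp.1.1.2
  have hD1 : ∀ p ∈ D, (2 * p.1 - p.2) % (3 * n) = r1 := fun p hp => hp.1.2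
  have hD2 : ∀ p ∈ D, (2 * p.2 - p.1) % (3 * n) = r2 := fun p hp => hp.2
  have hin : ∀ p ∈ D, p.2 + 4 ≤ 2 * p.1 ∧ p.1 + 4 ≤ 2 * p.2 := fun p hp => hS p.1 p.2 (hDS p hp)
  have hinj : ∀ p ∈ D, ∀ q ∈ D, 2 * p.1 - p.2 = 2 * q.1 - q.2 → 2 * p.2 - p.1 = 2 * q.2 - q.1 →
      p = q := by
    intro p hp q hq e1 e2
    have i1 := hin p hp
    have i2 := hin q hq
    ext <;> omega
  obtain ⟨p0, hp0⟩ := hr2.nonempty
  obtain ⟨a₀, b₀, hab⟩ := h2 p0.1 p0.2 (hDS p0 hp0)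
  have hdich : ∀ p ∈ D, 2 * p.1 - p.2 < 2 * p0.1 - p0.2 + 3 * n * a₀ ∨
      2 * p.2 - p.1 < 2 * p0.2 - p0.1 + 3 * n * b₀ := by
    intro p hp
    by_contra hcon
    push Not at hcon
    obtain ⟨a, ha, hpa⟩ := add_of_mod (m := 3 * n) (by omega) ((hD1 p0 hp0).trans (hD1 p hp).symm)
      hcon.1
    obtain ⟨b, hb, hpb⟩ := add_of_mod (m := 3 * n) (by omega) ((hD2 p0 hp0).trans (hD2 p hp).symm)
      hcon.2
    have i1 := hin p hp
    have i2 := hin p0 hp0
    apply hDE p hp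
    have := hab a b ha hb
    have e : p = (p0.1 + (b + 2 * a) * n, p0.2 + (2 * b + a) * n) := by
      have ea : 3 * n * a = 3 * (a * n) := by ring
      have eb : 3 * n * b = 3 * (b * n) := by ring
      rw [ea] at hpa
      rw [eb] at hpb
      have e1 : (b + 2 * a) * n = b * n + 2 * (a * n) := by ring
      have e2 : (2 * b + a) * n = 2 * (b * n) + a * n := by ring
      ext
      · simp only [e1]; omega
      · simp only [e2]; omega
    rw [e]
    exact this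
  have hun : {p | p ∈ D ∧ 2 * p.1 - p.2 < 2 * p0.1 - p0.2 + 3 * n * a₀}.Infinite ∨
      {p | p ∈ D ∧ 2 * p.2 - p.1 < 2 * p0.2 - p0.1 + 3 * n * b₀}.Infinite := by
    by_contra hcon
    push Not at hcon
    apply hr2
    refine Set.Finite.subset ((Set.not_infinite.1 (by simpa using hcon.1)).union
      (Set.not_infinite.1 (by simpa using hcon.2))) ?_
    intro p hp
    rcases hdich p hp with h | h
    · exact Or.inl ⟨hp, h⟩
    · exact Or.inr ⟨hp, h⟩
  rcases hun with hi | hi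
  · obtain ⟨k, hk⟩ := pig _ hi (fun p => 2 * p.1 - p.2) _ (fun p hp => hp.2)
    obtain ⟨C, hC⟩ := h3
    refine core n _ E hn (fun p => 2 * p.1 - p.2) (fun p => 2 * p.2 - p.1)
      (fun p hp q hq => hinj p hp.1.1 q hq.1.1) k r2 (fun p hp => hp.2)
      (fun p hp => hD2 p hp.1.1) (fun p hp => hDE p hp.1.1) hk ⟨k + 3 * C + 1, ?_⟩
    intro p hp hM
    have i1 := hin p hp.1.1
    have hk' : 2 * p.1 - p.2 = k := hp.2
    obtain ⟨b₁, hb₁⟩ := hC p.1 p.2 (hDS p hp.1.1) (by omega)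
    refine ⟨b₁, fun b hb q hq e1 e2 => ?_⟩
    have i2 := hin q hq.1.1
    have := hb₁ b hb
    have e : q = (p.1 + b * n, p.2 + 2 * b * n) := by
      have eb : 3 * n * b = 3 * (b * n) := by ring
      have eb2 : 2 * b * n = 2 * (b * n) := by ring
      simp only [eb] at e2
      have e1 := e1
      ext
      · simp only; omega
      · simp only [eb2]; omega
    rw [e]
    exact this
  · obtain ⟨k, hk⟩ := pig _ hi (fun p => 2 * p.2 - p.1) _ (fun p hp => hp.2)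
    obtain ⟨C, hC⟩ := h4
    refine core n _ E hn (fun p => 2 * p.2 - p.1) (fun p => 2 * p.1 - p.2)
      (fun p hp q hq e1 e2 => hinj p hp.1.1 q hq.1.1 e2 e1) k r1 (fun p hp => hp.2)
      (fun p hp => hD1 p hp.1.1) (fun p hp => hDE p hp.1.1) hk ⟨k + 3 * C + 1, ?_⟩
    intro p hp hM
    have i1 := hin p hp.1.1
    have hk' : 2 * p.2 - p.1 = k := hp.2
    obtain ⟨b₁, hb₁⟩ := hC p.1 p.2 (hDS p hp.1.1) (by omega)
    refine ⟨b₁, fun b hb q hq e1 e2 => ?_⟩
    have i2 := hin q hq.1.1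
    have := hb₁ b hb
    have e : q = (p.1 + 2 * b * n, p.2 + b * n) := by
      have eb : 3 * n * b = 3 * (b * n) := by ring
      have eb2 : 2 * b * n = 2 * (b * n) := by ring
      simp only [eb] at e2
      have e1 := e1
      ext
      · simp only [eb2]; omega
      · simp only; omega
    rw [e]
    exact this

end Pool.Agent.L7h12.SY
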