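import Pool.Agent.L7h98.SY.Stm

set_option autoImplicit false

/-! # SY: the polar polytope has the same exact symmetry group -/

namespace Pool.Agent.L7h12.SY

open scoped InnerProductSpace
open Module Classical Pool.Agent.L7h98.SY

theorem tr_polar {P Q : Set E3} (hP : P = {x | ∀ y ∈ Q, ⟪y, x⟫_ℝ ≤ 1}) (e f : E3 ≃ₗ[ℝ] E3)
    (hef : ∀ x y, ⟪f y, e x⟫_ℝ = ⟪y, x⟫_ℝ) (hQ : f '' Q = Q) : e '' P = P := by
  have key : ∀ x, x ∈ P ↔ e x ∈ P := by
    intro x
    rw [hP]
    simp only [Set.mem_setOf_eq]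
    constructor
    · intro h y hy
      rw [← hQ] at hy
      obtain ⟨y', hy', rfl⟩ := hy
      rw [hef]
      exact h y' hy'
    · intro h y hy
      rw [← hef]
      apply h
      rw [← hQ]
      exact ⟨y, hy, rfl⟩
  ext x
  constructor
  · rintro ⟨x', hx', rfl⟩
    exact (key x').1 hx'
  · intro hx
    refine ⟨e.symm x, ?_, e.apply_symm_apply x⟩
    rw [key, e.apply_symm_apply]
    exact hx

/-- the polar description -/
theorem polar_eq (hb : S_BAS) {V H : Finset E3} (p : Pair V H) :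
    convexHull ℝ (V : Set E3) = {x | ∀ y ∈ convexHull ℝ (H : Set E3), ⟪y, x⟫_ℝ ≤ 1} := by
  have h3 := (hb V H p).2.2.1
  ext x
  constructor
  · intro hx y hy
    have hx' : ∀ h ∈ H, ⟪h, x⟫_ℝ ≤ 1 := by rw [h3] at hx; exact hx
    have hconv : Convex ℝ {y : E3 | ⟪y, x⟫_ℝ ≤ 1} := by
      have : {y : E3 | ⟪y, x⟫_ℝ ≤ 1} = {y : E3 | (innerₛₗ ℝ x) y ≤ 1} := by
        ext y
        simp only [Set.mem_setOf_eq, innerₛₗ_apply_apply]
        rw [real_inner_comm]
      rw [this]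
      exact convex_halfSpace_le (LinearMap.isLinear _) 1
    exact convexHull_min (s := (H : Set E3)) (fun h hh => hx' h hh) hconv hy
  · intro hx
    rw [h3]
    intro h hh
    exact hx h (subset_convexHull ℝ _ hh)

theorem surj_of_image {P : Set E3} (h0 : (0 : E3) ∈ interior P) (A : E3 →ₗ[ℝ] E3)
    (hA : A '' P = P) : Function.Bijective A := by
  have hs : Function.Surjective A := by
    rw [← LinearMap.range_eq_top]
    apply Submodule.eq_top_of_nonempty_interior'
    refine ⟨0, interior_mono ?_ h0⟩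
    intro x hx
    rw [← hA] at hx
    obtain ⟨y, -, rfl⟩ := hx
    exact ⟨y, rfl⟩
  exact ⟨LinearMap.injective_iff_surjective.2 hs, hs⟩

/-- the inverse of the adjoint -/
noncomputable def coadj (e : E3 ≃ₗ[ℝ] E3) : E3 ≃ₗ[ℝ] E3 :=
  LinearEquiv.ofLinear (LinearMap.adjoint (e.symm : E3 →ₗ[ℝ] E3))
    (LinearMap.adjoint (e : E3 →ₗ[ℝ] E3))
    (by rw [← LinearMap.adjoint_comp]; simp)
    (by rw [← LinearMap.adjoint_comp]; simp)

theorem coadj_inner (e : E3 ≃ₗ[ℝ] E3) (x y : E3) : ⟪coadj e y, e x⟫_ℝ = ⟪y, x⟫_ℝ := by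
  show ⟪LinearMap.adjoint (e.symm : E3 →ₗ[ℝ] E3) y, e x⟫_ℝ = ⟪y, x⟫_ℝ
  rw [LinearMap.adjoint_inner_left]
  simp

theorem s_DX (hb : S_BAS) : S_DX := by
  intro G V H p hE
  have hPV := polar_eq hb p
  have hPH := polar_eq hb p.symm
  have h0 := (hb V H p).2.2.2.1
  unfold Exact at hE ⊢
  ext A
  constructor
  · intro hA
    have hA' : A '' convexHull ℝ (V : Set E3) = convexHull ℝ (V : Set E3) := hA
    set e : E3 ≃ₗ[ℝ] E3 := LinearEquiv.ofBijective A (surj_of_image h0 A hA') with he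
    have hee : ∀ x, e x = A x := fun x => rfl
    have h1 : coadj e '' convexHull ℝ (H : Set E3) = convexHull ℝ (H : Set E3) := by
      refine tr_polar hPH (coadj e) e (fun x y => ?_) hA'
      rw [real_inner_comm, coadj_inner, real_inner_comm]
    have h2 : (coadj e : E3 →ₗ[ℝ] E3) ∈ Symm (convexHull ℝ (H : Set E3)) := h1
    rw [hE] at h2
    obtain ⟨g, hg, hgl⟩ := h2
    refine ⟨g, hg, ?_⟩
    have h3 : ∀ y, g y = coadj e y := fun y => by
      have := congrArg (fun L : E3 →ₗ[ℝ] E3 => L y) hgl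
      exact this
    ext1 x
    show g x = A x
    refine ext_inner_left ℝ fun z => ?_
    obtain ⟨y, rfl⟩ := g.surjective z
    rw [g.inner_map_map, h3 y, ← hee, coadj_inner]
  · rintro ⟨g, hg, rfl⟩
    have h1 : lin g ∈ Symm (convexHull ℝ (H : Set E3)) := by
      rw [hE]
      exact ⟨g, hg, rfl⟩
    show lin g '' _ = _
    exact tr_polar hPV g.toLinearEquiv g.toLinearEquiv (fun x y => g.inner_map_map y x) h1

end Pool.Agent.L7h12.SY
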