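import Pool.Agent.L7h98.SY.Stm

set_option autoImplicit false

/-! # SY: at most `2N` facets are fixed by an element of order 3 -/

namespace Pool.Agent.L7h12.SY

open scoped InnerProductSpace
open Module Classical Pool.Agent.L7h98.SY

/-- the fixed space -/
noncomputable def fixS (g : E3 ≃ₗᵢ[ℝ] E3) : Submodule ℝ E3 :=
  LinearMap.eqLocus (lin g) LinearMap.id

theorem mem_fixS (g : E3 ≃ₗᵢ[ℝ] E3) (x : E3) : x ∈ fixS g ↔ g x = x := Iff.rfl

theorem fix_le_one (g : E3 ≃ₗᵢ[ℝ] E3) (h1 : g ≠ 1) (h3 : g ^ 3 = 1) : finrank ℝ (fixS g) ≤ 1 := by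
  by_contra hcon
  push Not at hcon
  have hsum := Submodule.finrank_add_finrank_orthogonal (fixS g)
  have hE : finrank ℝ E3 = 3 := by simp
  rw [hE] at hsum
  have hbot : (fixS g)ᗮ = ⊥ := by
    by_contra hne
    obtain ⟨u, hu, hu0⟩ := (fixS g)ᗮ.ne_bot_iff.1 hne
    have hpos : 0 < finrank ℝ (fixS g)ᗮ := by
      rw [Module.finrank_pos_iff_exists_ne_zero]
      exact ⟨⟨u, hu⟩, fun h => hu0 (congrArg Subtype.val h)⟩
    have hone : finrank ℝ (fixS g)ᗮ = 1 := by omega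
    have hgu : g u ∈ (fixS g)ᗮ := by
      rw [Submodule.mem_orthogonal]
      intro f hf
      rw [mem_fixS] at hf
      rw [← hf, g.inner_map_map]
      exact Submodule.inner_right_of_mem_orthogonal ((mem_fixS g f).2 hf) hu
    obtain ⟨c, hc⟩ := exists_smul_eq_of_finrank_eq_one hone
      (x := (⟨u, hu⟩ : (fixS g)ᗮ)) (fun h => hu0 (congrArg Subtype.val h)) ⟨g u, hgu⟩
    have hc' : g u = c • u := (congrArg Subtype.val hc).symm
    have h4 : c ^ 3 • u = u := by
      have e : (g ^ 3) u = u := by rw [h3]; rfl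
      have e2 : (g ^ 3) u = g (g (g u)) := rfl
      have e3 : g (g u) = (c * c) • u := by rw [hc', map_smul, hc', smul_smul]
      have e4 : g (g (g u)) = (c * c * c) • u := by rw [e3, map_smul, hc', smul_smul]
      calc c ^ 3 • u = (c * c * c) • u := by congr 1; ring
        _ = u := by rw [← e4, ← e2]; exact e
    have h5 : c ^ 3 = 1 := by
      have : (c ^ 3 - 1) • u = 0 := by rw [sub_smul, h4, one_smul, sub_self]
      rcases smul_eq_zero.1 this with h | h
      · linarith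
      · exact absurd h hu0
    have h6 : c = 1 := by
      have h7 : (c - 1) * (c ^ 2 + c + 1) = 0 := by ring_nf; linarith
      rcases mul_eq_zero.1 h7 with h | h
      · linarith
      · nlinarith [sq_nonneg (2 * c + 1)]
    rw [h6, one_smul] at hc'
    have h8 := Submodule.inner_right_of_mem_orthogonal ((mem_fixS g u).2 hc') hu
    exact hu0 (inner_self_eq_zero.1 h8)
  have htop : fixS g = ⊤ := (Submodule.orthogonal_eq_bot_iff).1 hbot
  apply h1
  ext1 x
  have : x ∈ fixS g := by rw [htop]; trivial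
  exact this

theorem zero_notMem {V H : Finset E3} (p : Pair V H) : (0 : E3) ∉ H := by
  intro h0
  obtain ⟨x, hx, -⟩ := p.expH 0 h0
  rw [inner_zero_left] at hx
  norm_num at hx

theorem eq_of_pos_smul {V H : Finset E3} (p : Pair V H) {h h' : E3} (hh : h ∈ H) (hh' : h' ∈ H)
    {c : ℝ} (hc : 0 < c) (he : h' = c • h) : h' = h := by
  by_contra hne
  obtain ⟨x, hx1, hx2⟩ := p.expH h' hh'
  obtain ⟨y, hy1, hy2⟩ := p.expH h hh
  have a1 := hx2 h hh (fun e => hne e.symm)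
  have a2 := hy2 h' hh' hne
  rw [he, inner_smul_left, hy1] at a2
  rw [he, inner_smul_left] at hx1
  simp only [conj_trivial] at a2 hx1
  nlinarith

theorem line_le_two {V H : Finset E3} (p : Pair V H) (F : Submodule ℝ E3)
    (hF : finrank ℝ F ≤ 1) : (H.filter fun h => h ∈ F).card ≤ 2 := by
  rcases (H.filter fun h => h ∈ F).eq_empty_or_nonempty with h | ⟨h0, hh0⟩
  · rw [h]; simp
  rw [Finset.mem_filter] at hh0
  have h00 : h0 ≠ 0 := fun h => zero_notMem p (h ▸ hh0.1)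
  have hpos : 0 < finrank ℝ F := by
    rw [Module.finrank_pos_iff_exists_ne_zero]
    exact ⟨⟨h0, hh0.2⟩, fun h => h00 (congrArg Subtype.val h)⟩
  have hone : finrank ℝ F = 1 := by omega
  have hex : ∀ h ∈ F, ∃ c : ℝ, h = c • h0 := by
    intro h hh
    obtain ⟨c, hc⟩ := exists_smul_eq_of_finrank_eq_one hone
      (x := (⟨h0, hh0.2⟩ : F)) (fun h => h00 (congrArg Subtype.val h)) ⟨h, hh⟩
    exact ⟨c, (congrArg Subtype.val hc).symm⟩
  have hn : 0 < ‖h0‖ ^ 2 := by positivity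
  have hcard : (Finset.univ : Finset Bool).card = 2 := rfl
  rw [← hcard]
  refine Finset.card_le_card_of_injOn (fun h => decide (0 < ⟪h0, h⟫_ℝ)) (fun _ _ => Finset.mem_coe.2 (Finset.mem_univ _)) ?_
  intro h hh h' hh' heq
  simp only [Finset.coe_filter, Set.mem_setOf_eq] at hh hh'
  obtain ⟨c, hc⟩ := hex h hh.2
  obtain ⟨c', hc'⟩ := hex h' hh'.2
  have hc0 : c ≠ 0 := by
    rintro rfl
    rw [zero_smul] at hc
    exact zero_notMem p (hc ▸ hh.1)
  have hc0' : c' ≠ 0 := by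
    rintro rfl
    rw [zero_smul] at hc'
    exact zero_notMem p (hc' ▸ hh'.1)
  have e1 : ⟪h0, h⟫_ℝ = c * ‖h0‖ ^ 2 := by rw [hc, inner_smul_right, real_inner_self_eq_norm_sq]
  have e2 : ⟪h0, h'⟫_ℝ = c' * ‖h0‖ ^ 2 := by
    rw [hc', inner_smul_right, real_inner_self_eq_norm_sq]
  simp only [e1, e2, decide_eq_decide] at heq
  have hiff : 0 < c ↔ 0 < c' := by
    rw [← mul_pos_iff_of_pos_right hn, heq, mul_pos_iff_of_pos_right hn]
  have hr : 0 < c' / c := by
    rcases lt_or_gt_of_ne hc0 with h1 | h1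
    · have h2 : c' < 0 := by
        rcases lt_or_gt_of_ne hc0' with h2 | h2
        · exact h2
        · exact absurd (hiff.2 h2) (not_lt.2 h1.le)
      exact div_pos_of_neg_of_neg h2 h1
    · exact div_pos (hiff.1 h1) h1
  refine (eq_of_pos_smul p hh.1 hh'.1 hr ?_).symm
  rw [hc, hc', smul_smul, div_mul_cancel₀ _ hc0]

theorem s_FIX3 : S_FIX3 := by
  intro G _ V H hG
  haveI : Fintype G := Fintype.ofFinite G
  have hsub : (H.filter fun h => ∃ g ∈ G, g ≠ 1 ∧ g ^ 3 = 1 ∧ g h = h) ⊆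
      (Finset.univ : Finset G).biUnion fun g =>
        if ((g : E3 ≃ₗᵢ[ℝ] E3) ≠ 1 ∧ (g : E3 ≃ₗᵢ[ℝ] E3) ^ 3 = 1) then
          H.filter (fun h => h ∈ fixS (g : E3 ≃ₗᵢ[ℝ] E3)) else ∅ := by
    intro h hh
    rw [Finset.mem_filter] at hh
    obtain ⟨hhH, g, hg, h1, h3, hgh⟩ := hh
    rw [Finset.mem_biUnion]
    refine ⟨⟨g, hg⟩, Finset.mem_univ _, ?_⟩
    rw [if_pos ⟨h1, h3⟩, Finset.mem_filter]
    exact ⟨hhH, hgh⟩
  calc (H.filter fun h => ∃ g ∈ G, g ≠ 1 ∧ g ^ 3 = 1 ∧ g h = h).card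
      ≤ _ := Finset.card_le_card hsub
    _ ≤ ∑ g : G, _ := Finset.card_biUnion_le
    _ ≤ ∑ _g : G, 2 := by
        refine Finset.sum_le_sum fun g _ => ?_
        split_ifs with hc
        · exact line_le_two hG.1 _ (fix_le_one _ hc.1 hc.2)
        · simp
    _ = 2 * Nat.card G := by
        rw [Finset.sum_const, Finset.card_univ, Nat.card_eq_fintype_card, smul_eq_mul, mul_comm]

end Pool.Agent.L7h12.SY
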