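import Pool.Agent.L7h98.SY.Stm

set_option autoImplicit false

/-! # SY: translation to a fixed interior point -/

namespace Pool.Agent.L7h12.SY

open scoped InnerProductSpace Pointwise
open Module Classical Pool.Agent.L7h98.SY

theorem exposed_vadd (c : E3) {P F : Set E3} (h : IsExposed ℝ P F) :
    IsExposed ℝ (c +ᵥ P) (c +ᵥ F) := by
  intro hne
  have hF : F.Nonempty := by
    obtain ⟨x, hx⟩ := hne
    obtain ⟨y, hy, -⟩ := hx
    exact ⟨y, hy⟩
  obtain ⟨l, hl⟩ := h hF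
  refine ⟨l, ?_⟩
  ext x
  constructor
  · rintro ⟨y, hy, rfl⟩
    rw [hl] at hy
    refine ⟨⟨y, hy.1, rfl⟩, ?_⟩
    rintro _ ⟨z, hz, rfl⟩
    have := hy.2 z hz
    simp only [vadd_eq_add, map_add]
    linarith
  · rintro ⟨⟨y, hy, rfl⟩, h2⟩
    refine ⟨y, ?_, rfl⟩
    rw [hl]
    refine ⟨hy, fun z hz => ?_⟩
    have := h2 (c +ᵥ z) ⟨z, hz, rfl⟩
    simp only [vadd_eq_add, map_add] at this
    linarith

theorem faceCount_vadd (c : E3) (P : Set E3) (k : ℕ) : faceCount k (c +ᵥ P) = faceCount k P := by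
  unfold faceCount
  have hset : {F : Set E3 | IsExposed ℝ (c +ᵥ P) F ∧ F.Nonempty ∧
      finrank ℝ (vectorSpan ℝ F) = k} =
      (fun F : Set E3 => c +ᵥ F) '' {F : Set E3 | IsExposed ℝ P F ∧ F.Nonempty ∧
        finrank ℝ (vectorSpan ℝ F) = k} := by
    ext F
    constructor
    · rintro ⟨h1, h2, h3⟩
      refine ⟨-c +ᵥ F, ⟨?_, ?_, ?_⟩, ?_⟩
      · have := exposed_vadd (-c) h1
        rwa [neg_vadd_vadd] at this
      · exact h2.vadd_set
      · rw [vectorSpan_vadd]; exact h3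
      · exact vadd_neg_vadd c F
    · rintro ⟨F', ⟨h1, h2, h3⟩, rfl⟩
      exact ⟨exposed_vadd c h1, h2.vadd_set, by rw [vectorSpan_vadd]; exact h3⟩
  rw [hset]
  exact Set.ncard_image_of_injective _ (fun A B h => by
    have h' : c +ᵥ A = c +ᵥ B := h
    rw [← neg_vadd_vadd c A, h', neg_vadd_vadd])

theorem s_TR : S_TR := by
  intro G _ P hP hG
  haveI : Fintype G := Fintype.ofFinite G
  obtain ⟨S0, hS0, x0, hx0⟩ := hP
  have hPc : Convex ℝ P := by rw [hS0]; exact convex_convexHull ℝ _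
  have hgP : ∀ g ∈ G, g '' P = P := fun g hg => hG g hg
  have hint : ∀ g : G, (g : E3 ≃ₗᵢ[ℝ] E3) x0 ∈ interior P := by
    intro g
    have h1 : (g : E3 ≃ₗᵢ[ℝ] E3) '' interior P = interior ((g : E3 ≃ₗᵢ[ℝ] E3) '' P) :=
      (g : E3 ≃ₗᵢ[ℝ] E3).toHomeomorph.image_interior P
    rw [hgP g g.2] at h1
    rw [← h1]
    exact ⟨x0, hx0, rfl⟩
  set N : ℝ := (Fintype.card G : ℝ) with hN
  have hN0 : 0 < N := by
    rw [hN]
    exact_mod_cast Fintype.card_pos
  set c : E3 := ∑ g : G, N⁻¹ • (g : E3 ≃ₗᵢ[ℝ] E3) x0 with hc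
  have hcint : c ∈ interior P := by
    refine hPc.interior.sum_mem (fun _ _ => by positivity) ?_ (fun g _ => hint g)
    rw [Finset.sum_const, Finset.card_univ, nsmul_eq_mul, ← hN]
    exact mul_inv_cancel₀ hN0.ne'
  have hgc : ∀ g ∈ G, g c = c := by
    intro g hg
    rw [hc, map_sum]
    have : ∀ g' : G, g (N⁻¹ • (g' : E3 ≃ₗᵢ[ℝ] E3) x0) =
        N⁻¹ • (((⟨g, hg⟩ : G) * g' : G) : E3 ≃ₗᵢ[ℝ] E3) x0 := by
      intro g'
      rw [map_smul]
      rfl
    simp only [this]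
    exact Fintype.sum_equiv (Equiv.mulLeft (⟨g, hg⟩ : G)) _ _ (fun _ => rfl)
  refine ⟨S0.image (fun x => -c + x), ?_, ?_, ?_⟩
  · have e : ((S0.image (fun x => -c + x) : Finset E3) : Set E3) = -c +ᵥ (S0 : Set E3) := by
      rw [Finset.coe_image]; rfl
    rw [e, convexHull_vadd, ← hS0, interior_vadd]
    exact ⟨c, hcint, by simp⟩
  · have e : ((S0.image (fun x => -c + x) : Finset E3) : Set E3) = -c +ᵥ (S0 : Set E3) := by
      rw [Finset.coe_image]; rfl
    intro g hg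
    rw [e, convexHull_vadd, ← hS0]
    ext x
    constructor
    · rintro ⟨_, ⟨y, hy, rfl⟩, rfl⟩
      refine ⟨g y, ?_, ?_⟩
      · rw [← hgP g hg]; exact ⟨y, hy, rfl⟩
      · simp only [vadd_eq_add, map_add, map_neg, hgc g hg]
    · rintro ⟨y, hy, rfl⟩
      rw [← hgP g hg] at hy
      obtain ⟨z, hz, rfl⟩ := hy
      refine ⟨-c + z, ⟨z, hz, rfl⟩, ?_⟩
      simp only [vadd_eq_add, map_add, map_neg, hgc g hg]
  · have e : ((S0.image (fun x => -c + x) : Finset E3) : Set E3) = -c +ᵥ (S0 : Set E3) := by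
      rw [Finset.coe_image]; rfl
    intro k
    rw [e, convexHull_vadd, ← hS0]
    exact faceCount_vadd (-c) P k

end Pool.Agent.L7h12.SY
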